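import Pool.Agent.LKT.Stmts

/-!
# Row WLX of squad LKT: the wall of the two end links
-/

set_option autoImplicit false

namespace Pool.Agent.LKT.H3

open Pool.Agent.LCK

/-- a convex combination is closer than the length of the end link -/
theorem cvx (c v y1 y2 y3 : E3) (s t p1 p2 p3 : ℝ) (ht : 0 < t) (h1 : 0 < p1)
    (h2 : 0 < p2) (h3 : 0 < p3) (hs : s = p1 + p2 + p3)
    (he : s • c + t • v = p1 • y1 + p2 • y2 + p3 • y3) (n1 : ‖y1 - c‖ < ‖v‖) (n2 : ‖y2 - c‖ < ‖v‖)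
    (n3 : ‖y3 - c‖ < ‖v‖) : t < s := by
  have e : t • v = p1 • (y1 - c) + p2 • (y2 - c) + p3 • (y3 - c) := by
    have h : t • v = p1 • y1 + p2 • y2 + p3 • y3 - s • c := by rw [← he]; abel
    rw [h, hs]
    module
  have hv : 0 < ‖v‖ := lt_of_le_of_lt (norm_nonneg _) n1
  have hn : t * ‖v‖ ≤ p1 * ‖y1 - c‖ + p2 * ‖y2 - c‖ + p3 * ‖y3 - c‖ := by
    have e2 : ‖t • v‖ = t * ‖v‖ := by rw [norm_smul, Real.norm_eq_abs, abs_of_pos ht]
    rw [← e2, e]
    refine (norm_add₃_le).trans ?_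
    rw [norm_smul, norm_smul, norm_smul, Real.norm_eq_abs, Real.norm_eq_abs, Real.norm_eq_abs,
      abs_of_pos h1, abs_of_pos h2, abs_of_pos h3]
  have hlt : t * ‖v‖ < s * ‖v‖ := by
    rw [hs]
    nlinarith [mul_lt_mul_of_pos_left n1 h1, mul_lt_mul_of_pos_left n2 h2,
      mul_lt_mul_of_pos_left n3 h3]
  exact lt_of_mul_lt_mul_right hlt hv.le

/-- moving the last row to the first place -/
theorem rot (h1 : CrmStmt) (a b c d : Fin 4 → ℝ) : d4 d a b c = - d4 a b c d := by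
  have e := h1.2.1
  rw [(e a d b c).1, (e a b d c).2.1, (e a b c d).2.2]
  ring

theorem dup (h1 : CrmStmt) (a b c : Fin 4 → ℝ) : d4 a b c a = 0 := by
  have h := rot h1 a b c a
  rw [h1.2.2.2 a b c] at h
  linarith

/-- the wall of the two end links -/
theorem wlx (h1 : CrmStmt) : WlxStmt := by
  intro x hx h h14
  obtain ⟨hdis, hn0, hn7⟩ := hx
  have g0 : 0 < ((-1 : ℤ) : ℝ) * D x 0 1 2 3 := h 0 (by norm_num) (by norm_num)
  have g3 : 0 < ((1 : ℤ) : ℝ) * D x 0 1 2 6 := h 3 (by norm_num) (by norm_num)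
  have g4 : 0 < ((-1 : ℤ) : ℝ) * D x 0 1 2 7 := h 4 (by norm_num) (by norm_num)
  have g9 : 0 < ((-1 : ℤ) : ℝ) * D x 0 1 4 5 := h 9 (by norm_num) (by norm_num)
  have g10 : 0 < ((1 : ℤ) : ℝ) * D x 0 1 4 6 := h 10 (by norm_num) (by norm_num)
  have g12 : 0 < ((-1 : ℤ) : ℝ) * D x 0 1 5 6 := h 12 (by norm_num) (by norm_num)
  have g22 : 0 < ((1 : ℤ) : ℝ) * D x 0 2 6 7 := h 22 (by norm_num) (by norm_num)
  have g26 : 0 < ((-1 : ℤ) : ℝ) * D x 0 4 5 6 := h 26 (by norm_num) (by norm_num)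
  have g32 : 0 < ((1 : ℤ) : ℝ) * D x 1 2 3 6 := h 32 (by norm_num) (by norm_num)
  have g33 : 0 < ((-1 : ℤ) : ℝ) * D x 1 2 3 7 := h 33 (by norm_num) (by norm_num)
  have g37 : 0 < ((-1 : ℤ) : ℝ) * D x 1 2 6 7 := h 37 (by norm_num) (by norm_num)
  have g39 : 0 < ((1 : ℤ) : ℝ) * D x 1 3 6 7 := h 39 (by norm_num) (by norm_num)
  have g40 : 0 < ((1 : ℤ) : ℝ) * D x 1 4 5 6 := h 40 (by norm_num) (by norm_num)
  have g49 : 0 < ((-1 : ℤ) : ℝ) * D x 2 3 6 7 := h 49 (by norm_num) (by norm_num)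
  have g58 : 0 < ((-1 : ℤ) : ℝ) * D x 4 5 6 7 := h 58 (by norm_num) (by norm_num)
  have w14 : ((-1 : ℤ) : ℝ) * D x 0 1 6 7 = 0 := h14
  push_cast at g0 g3 g4 g9 g10 g12 g22 g26 g32 g33 g37 g39 g40 g49 g58 w14
  have z14 : d4 (hom x 0) (hom x 1) (hom x 6) (hom x 7) = 0 := by
    have : D x 0 1 6 7 = 0 := by linarith
    exact this
  have c0 : hom x 0 0 = 0 := rfl
  have c1 : hom x 1 0 = 1 := rfl
  have c2 : hom x 2 0 = 1 := rfl
  have c3 : hom x 3 0 = 1 := rfl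
  have c4 : hom x 4 0 = 1 := rfl
  have c5 : hom x 5 0 = 1 := rfl
  have c6 : hom x 6 0 = 1 := rfl
  have c7 : hom x 7 0 = 0 := rfl
  have hc : ∀ (j : Fin 8) (i : Fin 3), hom x j i.succ = x j i := by
    intro j i
    fin_cases i <;> rfl
  -- first relation
  have k1 := fun i => h1.1 (hom x 0) (hom x 1) (hom x 2) (hom x 6) (hom x 7) i
  simp only [z14, zero_mul, add_zero] at k1
  have k2 := fun i => h1.1 (hom x 1) (hom x 2) (hom x 3) (hom x 6) (hom x 7) i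
  have k3 := fun i => h1.1 (hom x 0) (hom x 1) (hom x 4) (hom x 5) (hom x 6) i
  change ∀ i, D x 1 2 6 7 * hom x 0 i - D x 0 2 6 7 * hom x 1 i - D x 0 1 2 7 * hom x 6 i
    + D x 0 1 2 6 * hom x 7 i = 0 at k1
  change ∀ i, D x 2 3 6 7 * hom x 1 i - D x 1 3 6 7 * hom x 2 i + D x 1 2 6 7 * hom x 3 i
    - D x 1 2 3 7 * hom x 6 i + D x 1 2 3 6 * hom x 7 i = 0 at k2
  change ∀ i, D x 1 4 5 6 * hom x 0 i - D x 0 4 5 6 * hom x 1 i + D x 0 1 5 6 * hom x 4 i
    - D x 0 1 4 6 * hom x 5 i + D x 0 1 4 5 * hom x 6 i = 0 at k3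
  have e1 := k1 0
  rw [c0, c1, c6, c7] at e1
  have e2 := k2 0
  rw [c1, c2, c3, c6, c7] at e2
  have e3 := k3 0
  rw [c0, c1, c4, c5, c6] at e3
  -- the common point
  have v1 : (-D x 0 1 2 7) • x 1 + (-D x 1 2 6 7) • x 0
      = (-D x 0 1 2 7) • x 6 + (D x 0 1 2 6) • x 7 := by
    ext i
    have h5 := k1 i.succ
    simp only [hc] at h5
    simp only [PiLp.add_apply, PiLp.smul_apply, smul_eq_mul]
    linear_combination -h5 + x 1 i * e1
  have v2 : (-D x 1 2 3 7) • x 6 + (D x 1 2 3 6) • x 7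
      = (-D x 2 3 6 7) • x 1 + (D x 1 3 6 7) • x 2 + (-D x 1 2 6 7) • x 3 := by
    ext i
    have h5 := k2 i.succ
    simp only [hc] at h5
    simp only [PiLp.add_apply, PiLp.smul_apply, smul_eq_mul]
    linear_combination h5
  have v3 : (-D x 0 4 5 6) • x 1 + (D x 1 4 5 6) • x 0
      = (-D x 0 1 5 6) • x 4 + (D x 0 1 4 6) • x 5 + (-D x 0 1 4 5) • x 6 := by
    ext i
    have h5 := k3 i.succ
    simp only [hc] at h5
    simp only [PiLp.add_apply, PiLp.smul_apply, smul_eq_mul]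
    linear_combination h5
  have hR : (-D x 0 1 2 7) • hom x 1 + (-D x 1 2 6 7) • hom x 0
      = (-D x 0 1 2 7) • hom x 6 + (D x 0 1 2 6) • hom x 7 := by
    funext i
    simp only [Pi.add_apply, Pi.smul_apply, smul_eq_mul]
    linear_combination -(k1 i) + hom x 1 i * e1
  -- the two length estimates
  have t1 : D x 1 2 3 6 < -D x 1 2 3 7 :=
    cvx (x 6) (x 7) (x 1) (x 2) (x 3) _ _ _ _ _ (by linarith) (by linarith) (by linarith)
      (by linarith) (by linarith) v2 (hn7 1 (by decide) (by decide)) (hn7 2 (by decide) (by decide))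
      (hn7 3 (by decide) (by decide))
  have t2 : D x 1 4 5 6 < -D x 0 4 5 6 :=
    cvx (x 1) (x 0) (x 4) (x 5) (x 6) _ _ _ _ _ (by linarith) (by linarith) (by linarith)
      (by linarith) (by linarith) v3 (hn0 4 (by decide) (by decide)) (hn0 5 (by decide) (by decide))
      (hn0 6 (by decide) (by decide))
  -- the brackets of the common point
  have lin := h1.2.2.1
  have r1 : (-D x 1 2 6 7) * D x 0 1 2 3
      = -((-D x 0 1 2 7) * D x 1 2 3 6 + D x 0 1 2 6 * D x 1 2 3 7) := by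
    have a1 := lin (hom x 1) (hom x 0) (hom x 1) (hom x 2) (hom x 3) (-D x 0 1 2 7) (-D x 1 2 6 7)
    have a2 := lin (hom x 6) (hom x 7) (hom x 1) (hom x 2) (hom x 3) (-D x 0 1 2 7) (D x 0 1 2 6)
    rw [hR, a2, h1.2.2.2, rot h1 (hom x 1) (hom x 2) (hom x 3) (hom x 6),
      rot h1 (hom x 1) (hom x 2) (hom x 3) (hom x 7)] at a1
    change (-D x 0 1 2 7) * (-D x 1 2 3 6) + D x 0 1 2 6 * (-D x 1 2 3 7)
      = (-D x 0 1 2 7) * 0 + (-D x 1 2 6 7) * D x 0 1 2 3 at a1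
    linear_combination -a1
  have r2 : (-D x 0 1 2 7) * D x 1 4 5 6 + (-D x 1 2 6 7) * D x 0 4 5 6
      = -(D x 0 1 2 6 * D x 4 5 6 7) := by
    have a1 := lin (hom x 1) (hom x 0) (hom x 4) (hom x 5) (hom x 6) (-D x 0 1 2 7) (-D x 1 2 6 7)
    have a2 := lin (hom x 6) (hom x 7) (hom x 4) (hom x 5) (hom x 6) (-D x 0 1 2 7) (D x 0 1 2 6)
    rw [hR, a2, dup h1 (hom x 6) (hom x 4) (hom x 5),
      rot h1 (hom x 4) (hom x 5) (hom x 6) (hom x 7)] at a1
    change (-D x 0 1 2 7) * 0 + D x 0 1 2 6 * (-D x 4 5 6 7)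
      = (-D x 0 1 2 7) * D x 1 4 5 6 + (-D x 1 2 6 7) * D x 0 4 5 6 at a1
    linear_combination -a1
  have ps : 0 < -D x 0 1 2 7 := by linarith
  have pA : 0 < -D x 1 2 6 7 := by linarith
  have pB : 0 < D x 0 1 2 6 := by linarith
  have q1 : D x 0 1 2 3 < 0 := by linarith
  have q2 : D x 4 5 6 7 < 0 := by linarith
  have q3 : D x 1 2 3 7 < 0 := by linarith
  have q4 : D x 0 4 5 6 < 0 := by linarith
  clear g0 g3 g4 g9 g10 g12 g22 g26 g32 g33 g37 g39 g40 g49 g58 w14 z14 k1 k2 k3 v2 v3 hR e1 e2 e3 h h14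
  generalize D x 0 1 2 3 = d0123 at *
  generalize D x 1 2 3 6 = d1236 at *
  generalize D x 1 2 3 7 = d1237 at *
  generalize D x 1 4 5 6 = d1456 at *
  generalize D x 0 4 5 6 = d0456 at *
  generalize D x 4 5 6 7 = d4567 at *
  generalize -D x 0 1 2 7 = s at *
  generalize -D x 1 2 6 7 = A at *
  generalize D x 0 1 2 6 = B at *
  have hB : B < s := by
    have a1 : A * d0123 < 0 := mul_neg_of_pos_of_neg pA q1
    have a2 : B * (-d1237) < s * (-d1237) := by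
      have := mul_lt_mul_of_pos_left t1 ps
      linarith
    exact lt_of_mul_lt_mul_right a2 (by linarith)
  have hA : A < s := by
    have a1 : B * d4567 < 0 := mul_neg_of_pos_of_neg pB q2
    have a2 : A * (-d0456) < s * (-d0456) := by
      have := mul_lt_mul_of_pos_left t2 ps
      linarith
    exact lt_of_mul_lt_mul_right a2 (by linarith)
  -- the point on both links
  have w1 : x 1 + (A / s) • x 0 = x 6 + (B / s) • x 7 := by
    have e : s⁻¹ • (s • x 1 + A • x 0) = s⁻¹ • (s • x 6 + B • x 7) := by rw [v1]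
    rw [smul_add, smul_add, smul_smul, smul_smul, smul_smul, smul_smul, inv_mul_cancel₀ ps.ne',
      one_smul, one_smul] at e
    rw [div_eq_inv_mul, div_eq_inv_mul]
    exact e
  have hd := hdis 0 6 (by decide)
  have hq1 : x 1 + (A / s) • x 0 ∈ segment ℝ (x 1 + x 0) (x 1) := by
    refine ⟨A / s, 1 - A / s, (div_pos pA ps).le, ?_, by ring, ?_⟩
    · rw [sub_nonneg, div_le_one ps]
      exact hA.le
    · show (A / s) • (x 1 + x 0) + (1 - A / s) • x 1 = x 1 + (A / s) • x 0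
      module
  have hq2 : x 1 + (A / s) • x 0 ∈ segment ℝ (x 6) (x 6 + x 7) := by
    rw [w1]
    refine ⟨1 - B / s, B / s, ?_, (div_pos pB ps).le, by ring, ?_⟩
    · rw [sub_nonneg, div_le_one ps]
      exact hB.le
    · show (1 - B / s) • x 6 + (B / s) • (x 6 + x 7) = x 6 + (B / s) • x 7
      module
  exact Set.disjoint_left.1 hd hq1 hq2

end Pool.Agent.LKT.H3
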